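import Pool.Agent.MOM.Dyn.Erg.MaxErg

/-!
MOM/Dyn/Erg package Birk: the pointwise ergodic theorem for an ergodic measure.

PROOF. `birk_le`: let `g = f - c`, `U := {z | ∀ M : ℕ, ∃ N, (M : ℝ) < bs T g N z}` (the sums are
unbounded above); `U` is measurable (`measurable_bs`, countable intersection of countable unions).
`T ⁻¹' U = U`: `bs T g (N+1) z = g z + bs T g N (T z)` (`bs_succ'`) and `g z` is bounded by
`C + |c|`; `z ∈ U` iff for every real `R` some `N ≥ 1` has `R < bs T g N z` (`bs_zero`; take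
`M ≥ max R 0`). By ergodicity (`hν.prob_eq_zero_or_one`) `ν U = 0` or `ν U = 1`.
If `ν U = 1`, then `E := {z | ∃ N, 0 < bs T g N z} ⊇ U` has full measure, so by `max_erg`
`0 ≤ ∫_E g = ∫ g = ∫ f - c < 0` (`setIntegral_eq_integral_of_ae_compl_eq_zero` or
`Measure.restrict_eq_self_of_ae_mem`), a contradiction. So `ν U = 0`, and for `z ∉ U` there is `M`
with `bs T g N z ≤ M` for all `N`; use `bs_sub_const`.
`birk`: apply `birk_le` to `f` and `c = ∫ f + 1/(k+1)` and to `-f` and `c = -∫ f + 1/(k+1)` for all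
`k : ℕ` (`ae_all_iff`). For such `z` and every `k` there is `M` with
`|bs T f N z - N ∫ f| ≤ N/(k+1) + M` for all `N`, so `bs T f N z / N → ∫ f`.
-/

set_option autoImplicit false

namespace Pool.Agent.MOM.Dyn

open MeasureTheory Filter Topology Set

variable {Z : Type*} [MeasurableSpace Z]

theorem birk_le {T : Z → Z} {ν : Measure Z} [IsProbabilityMeasure ν] (hν : Ergodic T ν)
    {f : Z → ℝ} (hf : Measurable f) {C : ℝ} (hC : ∀ z, |f z| ≤ C) {c : ℝ} (hc : ∫ x, f x ∂ν < c) :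
    ∀ᵐ z ∂ν, ∃ M : ℝ, ∀ N : ℕ, bs T f N z ≤ c * N + M := by
  set g : Z → ℝ := fun x => f x - c with hgdef
  have hg : Measurable g := hf.sub measurable_const
  have hgC : ∀ z, |g z| ≤ C + |c| := fun z => (abs_sub _ _).trans (by linarith [hC z])
  set U : Set Z := {z | ∀ M : ℕ, ∃ N, (M : ℝ) < bs T g N z} with hU
  have hUm : MeasurableSet U := by
    have h1 : U = ⋂ M : ℕ, ⋃ N : ℕ, {z | (M : ℝ) < bs T g N z} := by
      ext z
      simp [hU]
    rw [h1]
    exact MeasurableSet.iInter fun M => MeasurableSet.iUnion fun N =>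
      measurableSet_lt measurable_const (measurable_bs hν.measurable hg N)
  have hUi : T ⁻¹' U = U := by
    ext z
    constructor
    · intro hz M
      obtain ⟨M', hM'⟩ := exists_nat_ge ((M : ℝ) + (C + |c|))
      obtain ⟨N, hN⟩ := hz M'
      refine ⟨N + 1, ?_⟩
      rw [bs_succ']
      have h1 := (abs_le.1 (hgC z)).1
      linarith
    · intro hz M
      obtain ⟨M', hM'⟩ := exists_nat_ge ((M : ℝ) + (C + |c|))
      obtain ⟨N, hN⟩ := hz M'
      cases N with
      | zero =>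
        exfalso
        rw [bs_zero] at hN
        have : (0 : ℝ) ≤ M' := Nat.cast_nonneg _
        linarith
      | succ N =>
        refine ⟨N, ?_⟩
        rw [bs_succ'] at hN
        have h1 := (abs_le.1 (hgC z)).2
        linarith
  have hint : Integrable f ν := by
    refine Integrable.of_bound hf.aestronglyMeasurable C ?_
    filter_upwards with z
    rw [Real.norm_eq_abs]
    exact hC z
  rcases hν.toPreErgodic.prob_eq_zero_or_one hUm hUi with h0 | h1
  · have h2 : ∀ᵐ z ∂ν, z ∉ U := measure_eq_zero_iff_ae_notMem.1 h0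
    filter_upwards [h2] with z hz
    simp only [hU, mem_ofPred_eq, not_forall, not_exists, not_lt] at hz
    obtain ⟨M, hM⟩ := hz
    refine ⟨M, fun N => ?_⟩
    have h3 := hM N
    rw [hgdef, bs_sub_const] at h3
    linarith
  · exfalso
    have h2 : ∀ᵐ z ∂ν, z ∈ U := (prob_compl_eq_zero_iff hUm).2 h1
    have h3 : ∀ᵐ z ∂ν, z ∈ {z | ∃ N, 0 < bs T g N z} := by
      filter_upwards [h2] with z hz
      obtain ⟨N, hN⟩ := hz 0
      exact ⟨N, by simpa using hN⟩
    have h4 := max_erg hν.toMeasurePreserving hg hgC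
    rw [Measure.restrict_eq_self_of_ae_mem h3, hgdef,
      integral_sub hint (integrable_const c), integral_const] at h4
    simp at h4
    linarith

omit [MeasurableSpace Z] in
private theorem birk_bs_neg (T : Z → Z) (f : Z → ℝ) (N : ℕ) (z : Z) :
    bs T (fun x => -f x) N z = -bs T f N z := by
  simp [bs, Finset.sum_neg_distrib]

/-- **Pointwise ergodic theorem** for an ergodic measure and a bounded measurable function. -/
theorem birk {T : Z → Z} {ν : Measure Z} [IsProbabilityMeasure ν] (hν : Ergodic T ν)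
    {f : Z → ℝ} (hf : Measurable f) {C : ℝ} (hC : ∀ z, |f z| ≤ C) :
    ∀ᵐ z ∂ν, Tendsto (fun N : ℕ => bs T f N z / (N : ℝ)) atTop (𝓝 (∫ x, f x ∂ν)) := by
  have h1 : ∀ᵐ z ∂ν, ∀ k : ℕ, ∃ M : ℝ, ∀ N : ℕ,
      bs T f N z ≤ (∫ x, f x ∂ν + 1 / ((k : ℝ) + 1)) * N + M := by
    rw [ae_all_iff]
    intro k
    refine birk_le hν hf hC ?_
    have : (0 : ℝ) < 1 / ((k : ℝ) + 1) := by positivity
    linarith
  have h2 : ∀ᵐ z ∂ν, ∀ k : ℕ, ∃ M : ℝ, ∀ N : ℕ,
      bs T (fun x => -f x) N z ≤ (-∫ x, f x ∂ν + 1 / ((k : ℝ) + 1)) * N + M := by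
    rw [ae_all_iff]
    intro k
    have hf' : Measurable fun x => -f x := hf.neg
    refine birk_le hν (f := fun x => -f x) hf' (C := C) (fun z => by rw [abs_neg]; exact hC z) ?_
    have : (0 : ℝ) < 1 / ((k : ℝ) + 1) := by positivity
    rw [integral_neg]
    linarith
  filter_upwards [h1, h2] with z hz1 hz2
  generalize ∫ x, f x ∂ν = I at *
  rw [Metric.tendsto_atTop]
  intro ε hε
  obtain ⟨k, hk⟩ := exists_nat_one_div_lt (half_pos hε)
  obtain ⟨M1, hM1⟩ := hz1 k
  obtain ⟨M2, hM2⟩ := hz2 k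
  obtain ⟨N0, hN0⟩ := exists_nat_gt ((|M1| + |M2|) / (ε / 2))
  refine ⟨N0 + 1, fun N hN => ?_⟩
  have hNr : (N0 : ℝ) + 1 ≤ N := by exact_mod_cast hN
  have hN00 : (0 : ℝ) ≤ N0 := Nat.cast_nonneg _
  have hNpos : (0 : ℝ) < N := by linarith
  have hb : |M1| + |M2| < ε / 2 * N := by
    rw [div_lt_iff₀ (half_pos hε)] at hN0
    nlinarith
  have h3 := hM1 N
  have h4 := hM2 N
  rw [birk_bs_neg] at h4
  have hm1 := le_abs_self M1
  have hm2 := le_abs_self M2
  have hn1 := abs_nonneg M1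
  have hn2 := abs_nonneg M2
  have hk2 : 1 / ((k : ℝ) + 1) * N < ε / 2 * N := mul_lt_mul_of_pos_right hk hNpos
  rw [Real.dist_eq, abs_lt]
  constructor
  · rw [lt_sub_iff_add_lt, lt_div_iff₀ hNpos]
    nlinarith
  · rw [sub_lt_iff_lt_add, div_lt_iff₀ hNpos]
    nlinarith

end Pool.Agent.MOM.Dyn
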