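import Mathlib

/-!
MOM/Dyn/Erg: definitions for the ergodic block: generic points along a sequence of times, Birkhoff
sums, invariant probability measures.
-/

set_option autoImplicit false

namespace Pool.Agent.MOM.Dyn

open MeasureTheory Filter Topology Set

/-- `z` is generic for `ν` along the times `Nk`. -/
def Gen {Z : Type*} [TopologicalSpace Z] [MeasurableSpace Z] (T : Z → Z) (ν : Measure Z)
    (Nk : ℕ → ℕ) (z : Z) : Prop :=
  ∀ f : C(Z, ℝ), Tendsto (fun k => (∑ n ∈ Finset.range (Nk k), f (T^[n] z)) / (Nk k : ℝ)) atTop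
    (𝓝 (∫ x, f x ∂ν))

/-- The Birkhoff sum of `g` at `z`. -/
def bs {Z : Type*} (T : Z → Z) (g : Z → ℝ) (N : ℕ) (z : Z) : ℝ :=
  ∑ n ∈ Finset.range N, g (T^[n] z)

theorem bs_zero {Z : Type*} (T : Z → Z) (g : Z → ℝ) (z : Z) : bs T g 0 z = 0 := by
  simp [bs]

theorem bs_succ {Z : Type*} (T : Z → Z) (g : Z → ℝ) (N : ℕ) (z : Z) :
    bs T g (N + 1) z = bs T g N z + g (T^[N] z) := by
  simp [bs, Finset.sum_range_succ]

theorem bs_succ' {Z : Type*} (T : Z → Z) (g : Z → ℝ) (N : ℕ) (z : Z) :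
    bs T g (N + 1) z = g z + bs T g N (T z) := by
  simp only [bs]
  rw [Finset.sum_range_succ', add_comm]
  rfl

theorem bs_sub_const {Z : Type*} (T : Z → Z) (g : Z → ℝ) (c : ℝ) (N : ℕ) (z : Z) :
    bs T (fun x => g x - c) N z = bs T g N z - c * N := by
  simp [bs, Finset.sum_sub_distrib, mul_comm]

theorem measurable_bs {Z : Type*} [MeasurableSpace Z] {T : Z → Z} (hT : Measurable T) {g : Z → ℝ}
    (hg : Measurable g) (N : ℕ) : Measurable (bs T g N) := by
  unfold bs
  exact Finset.measurable_fun_sum _ fun n _ => hg.comp (hT.iterate n)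

theorem abs_bs_le {Z : Type*} (T : Z → Z) {g : Z → ℝ} {C : ℝ} (hC : ∀ z, |g z| ≤ C) (N : ℕ)
    (z : Z) : |bs T g N z| ≤ C * N := by
  unfold bs
  refine (Finset.abs_sum_le_sum_abs _ _).trans ?_
  refine (Finset.sum_le_sum fun n _ => hC _).trans ?_
  simp [mul_comm]

/-- The `T`-invariant probability measures. -/
def InvM {Z : Type*} [MeasurableSpace Z] (T : Z → Z) : Set (ProbabilityMeasure Z) :=
  {ν | (ν : Measure Z).map T = (ν : Measure Z)}

end Pool.Agent.MOM.Dyn
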