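import Pool.Agent.MOM.Dyn.Erg.InvM

/-!
MOM/Dyn/Erg package Emp: invariant measures as limits of empirical measures (Krylov-Bogolyubov).

PROOF. Choose `N k ≥ k + 1` and `z k` from `h (k+1)`. Let `μ k : ProbabilityMeasure Z` be the
empirical measure `(1/N k) ∑_{n < N k} δ_{T^[n] (z k)}` (as a measure:
`((N k : ENNReal)⁻¹) • ∑ n ∈ Finset.range (N k), Measure.dirac (T^[n] (z k))`), so
`∫ f ∂(μ k) = (∑ n ∈ range (N k), f (T^[n] (z k))) / N k` for `f : C(Z, ℝ)`
(`integral_smul_measure`, `integral_finset_sum_measure`, `integral_dirac`).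
`ProbabilityMeasure Z` is compact: let `𝓤 := Ultrafilter.map μ (hyperfilter ℕ)`-limit `ν`
(`Ultrafilter.le_nhds_lim`), so that `∫ f ∂(μ k) → ∫ f ∂ν` along the hyperfilter for all
`f : C(Z, ℝ)` (`continuous_int`). `|∫ ψ ∂(μ k)| > ε` gives `ε ≤ |∫ ψ ∂ν|` (`ge_of_tendsto`).
Invariance (`invM_iff`): `∫ (f ∘ T) ∂(μ k) - ∫ f ∂(μ k) = (f (T^[N k] (z k)) - f (z k)) / N k`
(telescoping: `Finset.sum_range_succ` and `Finset.sum_range_succ'` for the sum over
`range (N k + 1)`), of absolute value at most `2 ‖f‖ / (k+1) → 0`; use `tendsto_nhds_unique`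
(the hyperfilter is below `atTop` on `ℕ`: `Filter.hyperfilter_le_atTop` or
`Nat.hyperfilter_le_atTop`).
-/

set_option autoImplicit false

namespace Pool.Agent.MOM.Dyn

open MeasureTheory Filter Topology Set

variable {Z : Type*} [TopologicalSpace Z] [CompactSpace Z] [T2Space Z]
  [SecondCountableTopology Z] [MeasurableSpace Z] [BorelSpace Z]

private theorem Emp_integrable (f : C(Z, ℝ)) (μ : Measure Z) [IsFiniteMeasure μ] :
    Integrable (fun z => f z) μ :=
  Integrable.of_bound f.continuous.aestronglyMeasurable ‖f‖ (ae_of_all _ f.norm_coe_le_norm)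

/-- The empirical measure. -/
private noncomputable def Emp_meas (T : Z → Z) (N : ℕ) (hN : 0 < N) (z : Z) :
    ProbabilityMeasure Z :=
  ⟨((N : ENNReal)⁻¹) • ∑ n ∈ Finset.range N, Measure.dirac (T^[n] z), by
    constructor
    rw [Measure.smul_apply, Measure.finset_sum_apply]
    simp only [measure_univ, Finset.sum_const, Finset.card_range, nsmul_eq_mul, mul_one,
      smul_eq_mul]
    exact ENNReal.inv_mul_cancel (by exact_mod_cast hN.ne') (ENNReal.natCast_ne_top N)⟩

private theorem Emp_int (T : Z → Z) (N : ℕ) (hN : 0 < N) (z : Z) (f : C(Z, ℝ)) :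
    ∫ x, f x ∂(Emp_meas T N hN z : Measure Z) =
      (∑ n ∈ Finset.range N, f (T^[n] z)) / (N : ℝ) := by
  have h1 : (Emp_meas T N hN z : Measure Z) =
      ((N : ENNReal)⁻¹) • ∑ n ∈ Finset.range N, Measure.dirac (T^[n] z) := rfl
  rw [h1, integral_smul_measure, integral_finset_sum_measure]
  · simp only [integral_dirac, ENNReal.toReal_inv, ENNReal.toReal_natCast, smul_eq_mul]
    rw [div_eq_inv_mul]
  · intro n _
    exact Emp_integrable f _

theorem exists_inv {T : Z → Z} (hT : Continuous T) (ψ : C(Z, ℝ)) {ε : ℝ}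
    (h : ∀ N0 : ℕ, ∃ N : ℕ, N0 ≤ N ∧ ∃ z, ε * N < |∑ n ∈ Finset.range N, ψ (T^[n] z)|) :
    ∃ ν ∈ InvM T, ε ≤ |∫ z, ψ z ∂(ν : Measure Z)| := by
  choose N hN z hz using fun k : ℕ => h (k + 1)
  have hN0 : ∀ k, 0 < N k := fun k => lt_of_lt_of_le (Nat.succ_pos k) (hN k)
  set μ : ℕ → ProbabilityMeasure Z := fun k => Emp_meas T (N k) (hN0 k) (z k) with hμ
  have hint : ∀ (f : C(Z, ℝ)) (k : ℕ), ∫ x, f x ∂(μ k : Measure Z) =
      (∑ n ∈ Finset.range (N k), f (T^[n] (z k))) / (N k : ℝ) := fun f k =>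
    Emp_int T (N k) (hN0 k) (z k) f
  have hne : Nonempty (ProbabilityMeasure Z) := ⟨μ 0⟩
  set F : Ultrafilter (ProbabilityMeasure Z) := (hyperfilter ℕ).map μ with hF
  have hlim : Tendsto μ (hyperfilter ℕ : Filter ℕ) (𝓝 F.lim) := F.le_nhds_lim
  have htend : ∀ f : C(Z, ℝ), Tendsto (fun k => ∫ x, f x ∂(μ k : Measure Z))
      (hyperfilter ℕ : Filter ℕ) (𝓝 (∫ x, f x ∂(F.lim : Measure Z))) := fun f =>
    ((continuous_int f).tendsto F.lim).comp hlim
  refine ⟨F.lim, ?_, ?_⟩
  · rw [invM_iff hT]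
    intro f
    have h1 := htend (f.comp ⟨T, hT⟩)
    have h2 := htend f
    have h3 := h1.sub h2
    have h4 : Tendsto (fun k => ∫ x, (f.comp ⟨T, hT⟩) x ∂(μ k : Measure Z) -
        ∫ x, f x ∂(μ k : Measure Z)) (hyperfilter ℕ : Filter ℕ) (𝓝 0) := by
      have h5 : Tendsto (fun k : ℕ => 2 * ‖f‖ * (1 / ((k : ℝ) + 1))) atTop (𝓝 0) := by
        have := (tendsto_one_div_add_atTop_nhds_zero_nat (𝕜 := ℝ)).const_mul (2 * ‖f‖)
        simpa using this
      refine squeeze_zero_norm (fun k => ?_) (h5.mono_left Nat.hyperfilter_le_atTop)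
      rw [hint, hint, ← sub_div]
      have h6 : (∑ n ∈ Finset.range (N k), (f.comp ⟨T, hT⟩) (T^[n] (z k))) -
          ∑ n ∈ Finset.range (N k), f (T^[n] (z k)) = f (T^[N k] (z k)) - f (z k) := by
        rw [← Finset.sum_sub_distrib]
        have h7 := Finset.sum_range_sub (fun n => f (T^[n] (z k))) (N k)
        simp only [Function.iterate_zero, id_eq] at h7
        rw [← h7]
        refine Finset.sum_congr rfl fun n _ => ?_
        rw [Function.iterate_succ_apply']
        rfl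
      rw [h6, norm_div, Real.norm_of_nonneg (Nat.cast_nonneg (N k))]
      have h8 : ‖f (T^[N k] (z k)) - f (z k)‖ ≤ 2 * ‖f‖ := by
        refine (norm_sub_le _ _).trans ?_
        have := f.norm_coe_le_norm (T^[N k] (z k))
        have := f.norm_coe_le_norm (z k)
        linarith
      have h9 : ((k : ℝ) + 1) ≤ N k := by exact_mod_cast hN k
      have h10 : (0 : ℝ) < (k : ℝ) + 1 := by positivity
      rw [div_eq_mul_one_div]
      exact mul_le_mul h8 (one_div_le_one_div_of_le h10 h9) (by positivity) (by positivity)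
    have h5 := tendsto_nhds_unique h3 h4
    have h6 := sub_eq_zero.1 h5
    exact h6
  · have h1 := (htend ψ).abs
    refine ge_of_tendsto h1 (Eventually.of_forall fun k => ?_)
    rw [hint, abs_div, abs_of_nonneg (Nat.cast_nonneg (N k) : (0 : ℝ) ≤ (N k : ℝ))]
    have h2 : (0 : ℝ) < N k := by exact_mod_cast hN0 k
    rw [le_div_iff₀ h2]
    exact (hz k).le

end Pool.Agent.MOM.Dyn
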