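import Pool.Agent.MOM.Dyn.Erg.Defs

/-!
MOM/Dyn/Erg package ErgExt: extreme invariant measures are ergodic.

PROOF. `T` is measure preserving (`hμ`, `T` continuous). Let `s` be measurable with
`T ⁻¹' s = s`. If `μ s = 0` or `μ sᶜ = 0` then `s` is eventually constant in `ae μ`
(`Filter.eventuallyConst_set'`-type lemma; `EventuallyConst s (ae μ)` iff `s =ᵐ ∅` or
`s =ᵐ univ`). Otherwise put `a = μ.real s` (`0 < a < 1`), `μ1 = (μ s)⁻¹ • μ.restrict s`,
`μ2 = (μ sᶜ)⁻¹ • μ.restrict sᶜ` (or `ProbabilityTheory.cond`), probability measures. They are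
`T`-invariant: `(μ.restrict s).map T = (μ.restrict (T ⁻¹' s)).map T = (μ.map T).restrict s`
(`Measure.restrict_map`), the same for `sᶜ`. For `f` continuous (integrable, `Z` compact, `μ`
finite) `∫ f ∂μ = ∫ f over s + ∫ f over sᶜ = a ∫ f ∂μ1 + (1-a) ∫ f ∂μ2` (`integral_add_compl`,
`integral_smul_measure`). By `hext` `μ1 = μ`, so `μ sᶜ = μ1 sᶜ = 0`, a contradiction.
-/

set_option autoImplicit false

namespace Pool.Agent.MOM.Dyn

open MeasureTheory Filter Topology Set

variable {Z : Type*} [TopologicalSpace Z] [CompactSpace Z] [T2Space Z]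
  [SecondCountableTopology Z] [MeasurableSpace Z] [BorelSpace Z]

omit [CompactSpace Z] [T2Space Z] [SecondCountableTopology Z] in
private theorem ergExt_inv {T : Z → Z} (hT : Continuous T) {μ : ProbabilityMeasure Z}
    (hμ : μ ∈ InvM T) {s : Set Z} (hs : MeasurableSet s) (hsT : T ⁻¹' s = s)
    (h0 : (μ : Measure Z) s ≠ 0) :
    ∃ μ1 ∈ InvM T, (μ1 : Measure Z) = ((μ : Measure Z) s)⁻¹ • (μ : Measure Z).restrict s := by
  have hprob : IsProbabilityMeasure (((μ : Measure Z) s)⁻¹ • (μ : Measure Z).restrict s) := by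
    constructor
    rw [Measure.smul_apply, Measure.restrict_apply MeasurableSet.univ, univ_inter, smul_eq_mul]
    exact ENNReal.inv_mul_cancel h0 (measure_ne_top _ _)
  refine ⟨⟨_, hprob⟩, ?_, rfl⟩
  have hmap : (μ : Measure Z).map T = (μ : Measure Z) := hμ
  change (((μ : Measure Z) s)⁻¹ • (μ : Measure Z).restrict s).map T =
    ((μ : Measure Z) s)⁻¹ • (μ : Measure Z).restrict s
  rw [Measure.map_smul]
  congr 1
  have h1 := Measure.restrict_map (μ := (μ : Measure Z)) hT.measurable hs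
  rw [hsT, hmap] at h1
  exact h1.symm

theorem ergodic_of_ext {T : Z → Z} (hT : Continuous T) {μ : ProbabilityMeasure Z}
    (hμ : μ ∈ InvM T)
    (hext : ∀ μ1 ∈ InvM T, ∀ μ2 ∈ InvM T, ∀ a : ℝ, 0 < a → a < 1 →
        (∀ f : C(Z, ℝ), ∫ z, f z ∂(μ : Measure Z) =
          a * ∫ z, f z ∂(μ1 : Measure Z) + (1 - a) * ∫ z, f z ∂(μ2 : Measure Z)) → μ1 = μ) :
    Ergodic T (μ : Measure Z) := by
  have hmp : MeasurePreserving T (μ : Measure Z) (μ : Measure Z) := ⟨hT.measurable, hμ⟩
  refine ⟨hmp, ⟨?_⟩⟩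
  intro s hs hsT
  by_contra hnc
  rw [eventuallyConst_set', not_or] at hnc
  have h0 : (μ : Measure Z) s ≠ 0 := fun h => hnc.1 (ae_eq_empty.2 h)
  have h1 : (μ : Measure Z) sᶜ ≠ 0 := fun h => hnc.2 (ae_eq_univ.2 h)
  obtain ⟨μ1, hμ1, e1⟩ := ergExt_inv hT hμ hs hsT h0
  obtain ⟨μ2, hμ2, e2⟩ := ergExt_inv hT hμ hs.compl (by rw [preimage_compl, hsT]) h1
  have hadd : (μ : Measure Z).real s + (μ : Measure Z).real sᶜ = 1 := by
    have h2 := measureReal_add_measureReal_compl (μ := (μ : Measure Z)) hs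
    rw [h2]
    simp
  have hpos : 0 < (μ : Measure Z).real s := by
    rw [measureReal_def]
    exact ENNReal.toReal_pos h0 (measure_ne_top _ _)
  have hpos' : 0 < (μ : Measure Z).real sᶜ := by
    rw [measureReal_def]
    exact ENNReal.toReal_pos h1 (measure_ne_top _ _)
  have heq : μ1 = μ := by
    refine hext μ1 hμ1 μ2 hμ2 ((μ : Measure Z).real s) hpos (by linarith) ?_
    intro f
    have hint : Integrable f (μ : Measure Z) :=
      f.continuous.integrable_of_hasCompactSupport (HasCompactSupport.of_compactSpace f)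
    rw [e1, e2, integral_smul_measure, integral_smul_measure, smul_eq_mul, smul_eq_mul,
      ENNReal.toReal_inv, ENNReal.toReal_inv, ← measureReal_def, ← measureReal_def]
    have h3 : 1 - (μ : Measure Z).real s = (μ : Measure Z).real sᶜ := by linarith
    rw [h3, ← mul_assoc, ← mul_assoc, mul_inv_cancel₀ hpos.ne', mul_inv_cancel₀ hpos'.ne',
      one_mul, one_mul, integral_add_compl hs hint]
  have h4 : (μ1 : Measure Z) sᶜ = 0 := by
    rw [e1, Measure.smul_apply, Measure.restrict_apply hs.compl]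
    simp
  rw [heq] at h4
  exact h1 h4

end Pool.Agent.MOM.Dyn
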