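import Pool.Agent.MOM.Dyn.Erg.InvM

/-!
MOM/Dyn/Erg package Ext: an invariant measure which maximizes `∫ ψ` and is an extreme point.

PROOF. Let `F i` be a dense sequence of `C(Z, ℝ)` (separable, see package GenAE) and let
`q 0 = ψ`, `q (i+1) = F i`. Define by recursion `K 0 = {ν ∈ InvM T | ∀ ν' ∈ InvM T, ∫ q 0 ∂ν' ≤
∫ q 0 ∂ν}`, `K (i+1) = {ν ∈ K i | ∀ ν' ∈ K i, ∫ q (i+1) ∂ν' ≤ ∫ q (i+1) ∂ν}`. By `isCompact_invM`,
`continuous_int`, `IsCompact.exists_isMaxOn` all `K i` are nonempty and compact (a closed subset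
of a compact set: `K i ∩ {ν | m ≤ ∫ q (i+1) ∂ν}` with `m` the maximum), decreasing; so there is
`μ ∈ ⋂ i, K i` (`IsCompact.nonempty_iInter_of_sequence_nonempty_isCompact_isClosed`;
`ProbabilityMeasure Z` is Hausdorff).
`μ` has the property: let `μ1, μ2 ∈ InvM T`, `0 < a < 1` with `∫ f ∂μ = a ∫ f ∂μ1 + (1-a) ∫ f ∂μ2`
for all `f`. By induction `μ1, μ2 ∈ K i` for all `i`: both integrals of `q i` are at most the
maximum `∫ q i ∂μ`, hence both are equal to it. So `∫ F i ∂μ1 = ∫ F i ∂μ` for all `i` and by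
density (`|∫ f ∂ν - ∫ g ∂ν| ≤ ‖f - g‖`) for all `f`; `eq_of_int`.
-/

set_option autoImplicit false

namespace Pool.Agent.MOM.Dyn

open MeasureTheory Filter Topology Set

variable {Z : Type*} [TopologicalSpace Z] [CompactSpace Z] [T2Space Z]
  [SecondCountableTopology Z] [MeasurableSpace Z] [BorelSpace Z]

/-- The maximizers of the integral of `g` over `K`. -/
private def Ext_am (g : C(Z, ℝ)) (K : Set (ProbabilityMeasure Z)) : Set (ProbabilityMeasure Z) :=
  {ν | ν ∈ K ∧ ∀ ν' ∈ K, ∫ z, g z ∂(ν' : Measure Z) ≤ ∫ z, g z ∂(ν : Measure Z)}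

private theorem Ext_am_prop (g : C(Z, ℝ)) {K : Set (ProbabilityMeasure Z)} (hK : IsCompact K)
    (hne : K.Nonempty) : IsCompact (Ext_am g K) ∧ (Ext_am g K).Nonempty := by
  obtain ⟨m, hm, hmax⟩ := hK.exists_isMaxOn hne (continuous_int g).continuousOn
  have h : Ext_am g K = K ∩ {ν | ∫ z, g z ∂(m : Measure Z) ≤ ∫ z, g z ∂(ν : Measure Z)} := by
    ext ν
    constructor
    · rintro ⟨h1, h2⟩
      exact ⟨h1, h2 m hm⟩
    · rintro ⟨h1, h2⟩
      exact ⟨h1, fun ν' hν' => (hmax hν').trans h2⟩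
  constructor
  · rw [h]
    exact hK.inter_right (isClosed_le continuous_const (continuous_int g))
  · exact ⟨m, hm, fun ν' hν' => hmax hν'⟩

/-- The iterated maximizers. -/
private def Ext_K (q : ℕ → C(Z, ℝ)) (K : Set (ProbabilityMeasure Z)) :
    ℕ → Set (ProbabilityMeasure Z)
  | 0 => Ext_am (q 0) K
  | n + 1 => Ext_am (q (n + 1)) (Ext_K q K n)

private theorem Ext_K_prop (q : ℕ → C(Z, ℝ)) {K : Set (ProbabilityMeasure Z)} (hK : IsCompact K)
    (hne : K.Nonempty) (n : ℕ) : IsCompact (Ext_K q K n) ∧ (Ext_K q K n).Nonempty := by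
  induction n with
  | zero => exact Ext_am_prop (q 0) hK hne
  | succ n ih => exact Ext_am_prop (q (n + 1)) ih.1 ih.2

theorem exists_ext {T : Z → Z} (hT : Continuous T) (ψ : C(Z, ℝ)) (hne : (InvM T).Nonempty) :
    ∃ μ ∈ InvM T, (∀ ν ∈ InvM T, ∫ z, ψ z ∂(ν : Measure Z) ≤ ∫ z, ψ z ∂(μ : Measure Z)) ∧
      ∀ μ1 ∈ InvM T, ∀ μ2 ∈ InvM T, ∀ a : ℝ, 0 < a → a < 1 →
        (∀ f : C(Z, ℝ), ∫ z, f z ∂(μ : Measure Z) =
          a * ∫ z, f z ∂(μ1 : Measure Z) + (1 - a) * ∫ z, f z ∂(μ2 : Measure Z)) → μ1 = μ := by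
  classical
  have hmet : TopologicalSpace.MetrizableSpace Z :=
    TopologicalSpace.metrizableSpace_of_t3_secondCountable Z
  let F : ℕ → C(Z, ℝ) := TopologicalSpace.denseSeq C(Z, ℝ)
  let q : ℕ → C(Z, ℝ) := fun n => match n with
    | 0 => ψ
    | n + 1 => F n
  have hK := isCompact_invM hT
  have hKp := Ext_K_prop q hK hne
  have hint : (⋂ i, Ext_K q (InvM T) i).Nonempty :=
    IsCompact.nonempty_iInter_of_sequence_nonempty_isCompact_isClosed _
      (fun i ν hν => hν.1) (fun i => (hKp i).2) (hKp 0).1 (fun i => (hKp i).1.isClosed)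
  obtain ⟨μ, hμ⟩ := hint
  rw [Set.mem_iInter] at hμ
  have hμ0 : μ ∈ InvM T := (hμ 0).1
  refine ⟨μ, hμ0, (hμ 0).2, ?_⟩
  intro μ1 h1 μ2 h2 a ha0 ha1 hconv
  have key : ∀ i, μ1 ∈ Ext_K q (InvM T) i ∧ μ2 ∈ Ext_K q (InvM T) i ∧
      ∫ z, q i z ∂(μ1 : Measure Z) = ∫ z, q i z ∂(μ : Measure Z) := by
    have step : ∀ (g : C(Z, ℝ)) (K : Set (ProbabilityMeasure Z)), μ1 ∈ K → μ2 ∈ K →
        μ ∈ Ext_am g K → μ1 ∈ Ext_am g K ∧ μ2 ∈ Ext_am g K ∧
          ∫ z, g z ∂(μ1 : Measure Z) = ∫ z, g z ∂(μ : Measure Z) := by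
      intro g K k1 k2 hm
      have e1 := hm.2 μ1 k1
      have e2 := hm.2 μ2 k2
      have e3 := hconv g
      have e4 : ∫ z, g z ∂(μ1 : Measure Z) = ∫ z, g z ∂(μ : Measure Z) := by
        nlinarith [mul_le_mul_of_nonneg_left e2 (sub_nonneg.2 ha1.le)]
      have e5 : ∫ z, g z ∂(μ2 : Measure Z) = ∫ z, g z ∂(μ : Measure Z) := by
        rw [e4] at e3
        have : (1 - a) * (∫ z, g z ∂(μ2 : Measure Z) - ∫ z, g z ∂(μ : Measure Z)) = 0 := by
          linarith
        rcases mul_eq_zero.1 this with h | h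
        · linarith
        · linarith
      exact ⟨⟨k1, fun ν' hν' => e4 ▸ hm.2 ν' hν'⟩, ⟨k2, fun ν' hν' => e5 ▸ hm.2 ν' hν'⟩, e4⟩
    intro i
    induction i with
    | zero => exact step (q 0) _ h1 h2 (hμ 0)
    | succ i ih => exact step (q (i + 1)) _ ih.1 ih.2.1 (hμ (i + 1))
  refine eq_of_int fun f => ?_
  have hclosed : IsClosed {g : C(Z, ℝ) | ∫ z, g z ∂(μ1 : Measure Z) =
      ∫ z, g z ∂(μ : Measure Z)} := by
    have hc : ∀ ν : ProbabilityMeasure Z, Continuous fun g : C(Z, ℝ) =>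
        ∫ z, g z ∂(ν : Measure Z) := by
      intro ν
      refine LipschitzWith.continuous (K := 1) (LipschitzWith.of_dist_le_mul fun g g' => ?_)
      have hi : ∀ h : C(Z, ℝ), Integrable (fun z => h z) (ν : Measure Z) := fun h =>
        (h.continuous.integrable_of_hasCompactSupport
          (HasCompactSupport.of_compactSpace _))
      rw [NNReal.coe_one, one_mul, Real.dist_eq, ← integral_sub (hi g) (hi g')]
      have hb : ∀ z, ‖g z - g' z‖ ≤ dist g g' := fun z => by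
        rw [← dist_eq_norm]
        exact ContinuousMap.dist_apply_le_dist z
      have := norm_integral_le_of_norm_le_const (μ := (ν : Measure Z))
        (Filter.Eventually.of_forall hb)
      simpa using this
    exact isClosed_eq (hc μ1) (hc μ)
  have hdense : Dense (Set.range F) := TopologicalSpace.denseRange_denseSeq C(Z, ℝ)
  have hsub : Set.range F ⊆ {g : C(Z, ℝ) | ∫ z, g z ∂(μ1 : Measure Z) =
      ∫ z, g z ∂(μ : Measure Z)} := by
    rintro _ ⟨i, rfl⟩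
    exact (key (i + 1)).2.2
  have hall := hclosed.closure_subset_iff.2 hsub
  rw [hdense.closure_eq] at hall
  exact hall (Set.mem_univ f)

end Pool.Agent.MOM.Dyn
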