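import Pool.Agent.MOM.Dyn.Erg.Birk

/-!
MOM/Dyn/Erg package GenAE: almost every point is generic (along all times).

PROOF. If `Z` is empty there is nothing to prove. `C(Z, ℝ)` is separable. Let `F i` be a dense
sequence (`TopologicalSpace.denseSeq`). By `birk` for almost every `z` all the averages of the `F i`
converge to `∫ F i`. For `f : C(Z, ℝ)` and `ε > 0` take `i` with `‖f - F i‖ < ε`: the averages of
`f` and `F i` differ by at most `ε` and so do the integrals, hence the averages of `f` are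
eventually within `3 ε` of `∫ f`.
-/

set_option autoImplicit false

namespace Pool.Agent.MOM.Dyn

open MeasureTheory Filter Topology Set

variable {Z : Type*} [TopologicalSpace Z] [CompactSpace Z] [T2Space Z]
  [SecondCountableTopology Z] [MeasurableSpace Z] [BorelSpace Z]

theorem gen_ae {T : Z → Z} {ν : Measure Z} [IsProbabilityMeasure ν] (hν : Ergodic T ν) :
    ∀ᵐ z ∂ν, Gen T ν id z := by
  have h : ∀ i : ℕ, ∀ᵐ z ∂ν, Tendsto
      (fun N : ℕ => bs T (TopologicalSpace.denseSeq C(Z, ℝ) i) N z / (N : ℝ)) atTop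
      (𝓝 (∫ x, TopologicalSpace.denseSeq C(Z, ℝ) i x ∂ν)) := fun i =>
    birk hν (TopologicalSpace.denseSeq C(Z, ℝ) i).continuous.measurable
      (C := ‖TopologicalSpace.denseSeq C(Z, ℝ) i‖)
      (fun z => by
        rw [← Real.norm_eq_abs]
        exact (TopologicalSpace.denseSeq C(Z, ℝ) i).norm_coe_le_norm z)
  filter_upwards [ae_all_iff.2 h] with z hz f
  rw [Metric.tendsto_atTop]
  intro ε hε
  obtain ⟨i, hi⟩ := (TopologicalSpace.denseRange_denseSeq C(Z, ℝ)).exists_dist_lt f
    (show 0 < ε / 3 by positivity)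
  rw [dist_eq_norm] at hi
  obtain ⟨N0, hN0⟩ := (Metric.tendsto_atTop.1 (hz i)) (ε / 3) (by positivity)
  set F := TopologicalSpace.denseSeq C(Z, ℝ) i with hF
  have hpt : ∀ x, |f x - F x| ≤ ‖f - F‖ := by
    intro x
    rw [← Real.norm_eq_abs]
    exact (f - F).norm_coe_le_norm x
  refine ⟨N0, fun N hN => ?_⟩
  have h1 := hN0 N hN
  have h2 : |bs T f N z / (N : ℝ) - bs T F N z / (N : ℝ)| ≤ ‖f - F‖ := by
    have e : bs T f N z - bs T F N z = bs T (fun x => f x - F x) N z := by
      simp [bs, Finset.sum_sub_distrib]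
    rw [← sub_div, e, abs_div, Nat.abs_cast]
    rcases Nat.eq_zero_or_pos N with h0 | h0
    · subst h0
      simp
    · rw [div_le_iff₀ (by exact_mod_cast h0)]
      exact abs_bs_le T hpt N z
  have h3 : |∫ x, F x ∂ν - ∫ x, f x ∂ν| ≤ ‖f - F‖ := by
    have hint : ∀ g : C(Z, ℝ), Integrable (fun x => g x) ν := fun g =>
      g.continuous.integrable_of_hasCompactSupport (HasCompactSupport.of_compactSpace g)
    rw [← integral_sub (hint F) (hint f), ← Real.norm_eq_abs]
    refine (norm_integral_le_of_norm_le_const (C := ‖f - F‖)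
      (Eventually.of_forall fun x => ?_)).trans ?_
    · rw [Real.norm_eq_abs, abs_sub_comm]
      exact hpt x
    · simp
  rw [Real.dist_eq] at h1 ⊢
  simp only [id_eq]
  change |bs T f N z / (N : ℝ) - ∫ x, f x ∂ν| < ε
  have h4 := abs_sub_le (bs T f N z / (N : ℝ)) (bs T F N z / (N : ℝ)) (∫ x, f x ∂ν)
  have h5 := abs_sub_le (bs T F N z / (N : ℝ)) (∫ x, F x ∂ν) (∫ x, f x ∂ν)
  linarith

end Pool.Agent.MOM.Dyn
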