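import Pool.Agent.MOM.Dyn.Erg.MaxErg

/-!
MOM/Dyn/Erg package Vis: the maximal inequality for the visits to a set.

PROOF. Put `g z = indicator A 1 z - 1/20` (measurable, `|g| ≤ 1`). Then
`bs T g N z = card ((range N).filter (T^[n] z ∈ A)) - N / 20` (`bs_sub_const`, `Finset.sum_boole`
or `Finset.sum_filter`/`Finset.card_filter`), so `E := {z | ∃ N, 0 < bs T g N z}` is the set of the
statement. `max_erg`: `0 ≤ ∫_E g = ν.real (A ∩ E) - (1/20) * ν.real E`
(`integral_sub`, `integral_indicator`, `setIntegral_const`; `E` is measurable: a countable union of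
the sets `{z | 0 < bs T g N z}`, `measurable_bs`), hence `ν.real E ≤ 20 * ν.real (A ∩ E) ≤
20 * ν.real A` (`measureReal_mono`).
-/

set_option autoImplicit false

namespace Pool.Agent.MOM.Dyn

open MeasureTheory Filter Topology Set

variable {Z : Type*} [MeasurableSpace Z]

open scoped Classical in
/-- The points which at some time have visited `A` more than 5 percent of the time. -/
theorem visits_le {T : Z → Z} {ν : Measure Z} [IsProbabilityMeasure ν]
    (hT : MeasurePreserving T ν ν) {A : Set Z} (hA : MeasurableSet A) :
    ν.real {z | ∃ N : ℕ, N < 20 * ((Finset.range N).filter fun n => T^[n] z ∈ A).card} ≤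
      20 * ν.real A := by
  set g : Z → ℝ := fun z => A.indicator 1 z - 1 / 20 with hg
  have hind : Measurable (A.indicator (1 : Z → ℝ)) := measurable_one.indicator hA
  have hgm : Measurable g := hind.sub_const _
  have hi0 : ∀ z, 0 ≤ A.indicator (1 : Z → ℝ) z := fun z =>
    Set.indicator_nonneg (fun _ _ => zero_le_one) z
  have hi1 : ∀ z, A.indicator (1 : Z → ℝ) z ≤ 1 := fun z =>
    Set.indicator_le_self' (fun _ _ => zero_le_one) z
  have hgC : ∀ z, |g z| ≤ 1 := by
    intro z
    have h0 := hi0 z
    have h1 := hi1 z
    rw [abs_le]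
    constructor
    · simp only [hg]; linarith
    · simp only [hg]; linarith
  have hbs : ∀ (N : ℕ) (z : Z), bs T g N z =
      (((Finset.range N).filter fun n => T^[n] z ∈ A).card : ℝ) - 1 / 20 * N := by
    intro N z
    rw [hg, bs_sub_const]
    congr 1
    rw [bs, Finset.card_filter]
    push_cast
    refine Finset.sum_congr rfl fun n _ => ?_
    simp only [Set.indicator_apply, Pi.one_apply]
  have hset : {z | ∃ N : ℕ, N < 20 * ((Finset.range N).filter fun n => T^[n] z ∈ A).card} =
      {z | ∃ N, 0 < bs T g N z} := by
    ext z
    simp only [Set.mem_ofPred_eq]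
    refine exists_congr fun N => ?_
    rw [hbs]
    constructor
    · intro h
      have h' : (N : ℝ) < 20 * (((Finset.range N).filter fun n => T^[n] z ∈ A).card : ℝ) := by
        exact_mod_cast h
      linarith
    · intro h
      have h' : (N : ℝ) < 20 * (((Finset.range N).filter fun n => T^[n] z ∈ A).card : ℝ) := by
        linarith
      exact_mod_cast h'
  rw [hset]
  set E : Set Z := {z | ∃ N, 0 < bs T g N z} with hE
  have hEm : MeasurableSet E := by
    have : E = ⋃ N : ℕ, {z | 0 < bs T g N z} := by
      ext z
      simp [hE]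
    rw [this]
    exact MeasurableSet.iUnion fun N =>
      measurableSet_lt measurable_const (measurable_bs hT.measurable hgm N)
  have hmax := max_erg hT hgm hgC
  have hii : Integrable (A.indicator (1 : Z → ℝ)) (ν.restrict E) :=
    (integrable_const (1 : ℝ)).indicator hA
  have hint : ∫ z in E, g z ∂ν = ν.real (A ∩ E) - 1 / 20 * ν.real E := by
    simp only [hg]
    rw [integral_sub hii (integrable_const _), integral_indicator_one hA, setIntegral_const,
      smul_eq_mul, measureReal_restrict_apply hA]
    ring
  rw [hint] at hmax
  have hmono : ν.real (A ∩ E) ≤ ν.real A := measureReal_mono Set.inter_subset_left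
  linarith

end Pool.Agent.MOM.Dyn
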