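import Pool.Agent.MOM.Dyn.Erg.GenAE
import Pool.Agent.MOM.Dyn.Erg.Vis

/-!
MOM/Dyn/Erg package Good: the good sets of an ergodic measure.

PROOF. Take `Nk = id`. `D := toMeasurable ν {z | ¬ Gen T ν id z}` is a measurable null set
(`gen_ae`, `measure_toMeasurable`). `ν` is inner regular for compact sets (`Z` compact Hausdorff
second countable, `ν` finite; `MeasurableSet.exists_isCompact_lt_add` or
`MeasurableSet.exists_lt_isCompact_of_ne_top`): take `K1 ⊆ Dᶜ` compact with
`1 - 1/1000 < ν.real K1`. Let `B := {z | ∃ N, N < 20 * card (visits of K1ᶜ)}`; by `visits_le`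
with `A = K1ᶜ`: `ν.real B ≤ 20/1000`. `B` is measurable or use `toMeasurable ν B` again. Take
`K2 ⊆ K1 ∩ (toMeasurable ν B)ᶜ` compact with `ν.real K2 > 9/10`
(the measure of this set is at least `1 - 21/1000`). For `z ∈ K2`, `z ∉ B` is the last claim.
-/

set_option autoImplicit false

namespace Pool.Agent.MOM.Dyn

open MeasureTheory Filter Topology Set

variable {Z : Type*} [TopologicalSpace Z] [CompactSpace Z] [T2Space Z]
  [SecondCountableTopology Z] [MeasurableSpace Z] [BorelSpace Z]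

private theorem good_compact (ν : Measure Z) [IsProbabilityMeasure ν] {A : Set Z}
    (hA : MeasurableSet A) {δ : ℝ} (hδ : 0 < δ) :
    ∃ K ⊆ A, IsCompact K ∧ ν.real A - δ < ν.real K := by
  have hpm : TopologicalSpace.MetrizableSpace Z :=
    TopologicalSpace.metrizableSpace_of_t3_secondCountable Z
  have hreg : ν.Regular := inferInstance
  obtain ⟨K, hKA, hK, hlt⟩ := hA.exists_isCompact_lt_add (measure_ne_top ν A)
    (ε := ENNReal.ofReal δ) (by simpa using hδ)
  refine ⟨K, hKA, hK, ?_⟩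
  have h1 : (ν A).toReal < (ν K + ENNReal.ofReal δ).toReal :=
    (ENNReal.toReal_lt_toReal (measure_ne_top ν A)
      (ENNReal.add_ne_top.mpr ⟨measure_ne_top ν K, ENNReal.ofReal_ne_top⟩)).mpr hlt
  rw [ENNReal.toReal_add (measure_ne_top ν K) ENNReal.ofReal_ne_top,
    ENNReal.toReal_ofReal hδ.le] at h1
  have h2 : ν.real A < ν.real K + δ := h1
  linarith

open scoped Classical in
theorem erg_good_aux {T : Z → Z} (ν : Measure Z) [IsProbabilityMeasure ν] (hν : Ergodic T ν) :
    ∃ (K1 K2 : Set Z) (Nk : ℕ → ℕ), IsCompact K1 ∧ IsCompact K2 ∧ K2 ⊆ K1 ∧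
      9 / 10 < ν.real K2 ∧ Tendsto Nk atTop atTop ∧ (∀ z ∈ K1, Gen T ν Nk z) ∧
      ∀ z ∈ K2, ∀ N : ℕ, 20 * ((Finset.range N).filter fun n => T^[n] z ∉ K1).card ≤ N := by
  set D : Set Z := toMeasurable ν {z | ¬ Gen T ν id z} with hD
  have hDm : MeasurableSet D := measurableSet_toMeasurable _ _
  have hD0 : ν D = 0 := by
    rw [hD, measure_toMeasurable]
    exact ae_iff.mp (gen_ae hν)
  have hDr : ν.real D = 0 := by
    rw [Measure.real, hD0, ENNReal.toReal_zero]
  have hDc : ν.real Dᶜ = 1 := by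
    rw [probReal_compl_eq_one_sub hDm, hDr, sub_zero]
  obtain ⟨K1, hK1D, hK1, hK1r⟩ := good_compact ν hDm.compl
    (show (0 : ℝ) < 1 / 1000 by norm_num)
  rw [hDc] at hK1r
  have hK1m : MeasurableSet K1 := hK1.measurableSet
  have hK1c : ν.real K1ᶜ < 1 / 1000 := by
    rw [probReal_compl_eq_one_sub hK1m]
    linarith
  set B : Set Z :=
    {z | ∃ N : ℕ, N < 20 * (@Finset.filter ℕ (fun n => T^[n] z ∈ K1ᶜ)
      (fun _ => Classical.propDecidable _) (Finset.range N)).card} with hB
  have hBr : ν.real B ≤ 20 * ν.real K1ᶜ := visits_le hν.toMeasurePreserving hK1m.compl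
  set B' : Set Z := toMeasurable ν B with hB'
  have hB'm : MeasurableSet B' := measurableSet_toMeasurable _ _
  have hB'r : ν.real B' = ν.real B := by
    rw [Measure.real, Measure.real, hB', measure_toMeasurable]
  obtain ⟨K2, hK2s, hK2, hK2r⟩ := good_compact ν (hK1m.diff hB'm)
    (show (0 : ℝ) < 1 / 1000 by norm_num)
  have hdiff : ν.real K1 - ν.real B' ≤ ν.real (K1 \ B') := le_measureReal_sdiff
  refine ⟨K1, K2, id, hK1, hK2, fun z hz => (hK2s hz).1, by linarith, tendsto_id, ?_, ?_⟩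
  · intro z hz
    have h1 : z ∉ D := hK1D hz
    by_contra h2
    exact h1 (subset_toMeasurable ν _ h2)
  · intro z hz N
    have h1 : z ∉ B := fun h2 => (hK2s hz).2 (subset_toMeasurable ν B h2)
    by_contra h2
    apply h1
    refine ⟨N, ?_⟩
    push Not at h2
    have h3 : (@Finset.filter ℕ (fun n => T^[n] z ∈ K1ᶜ)
        (fun _ => Classical.propDecidable _) (Finset.range N)) =
        ((Finset.range N).filter fun n => T^[n] z ∉ K1) := by
      ext n
      simp only [Finset.mem_filter, Set.mem_compl_iff]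
    rw [h3]
    exact h2

end Pool.Agent.MOM.Dyn
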