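import Pool.Agent.MOM.Dyn.Erg.Defs

/-!
MOM/Dyn/Erg package Inv: a measure with two generic points `z`, `S z` is invariant under `S`.

PROOF. `S (T^[n] z) = T^[n] (S z)` (induction, `Function.Commute.iterate_right` or directly). For
`f : C(Z, ℝ)` the sums for `f ∘ S` at `z` and for `f` at `S z` are equal, so
`∫ f (S x) ∂ν = ∫ f x ∂ν` (`tendsto_nhds_unique` with `h1 (f.comp ⟨S, hS⟩)` and `h2 f`). By
`integral_map` (`S` continuous) `∫ f ∂(ν.map S) = ∫ f ∂ν`, and
`ext_of_forall_integral_eq_of_IsFiniteMeasure` gives the claim (`Z` is metrizable, so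
`HasOuterApproxClosed Z`; a bounded continuous function gives an element of `C(Z, ℝ)` by
`.toContinuousMap`).
-/

set_option autoImplicit false

namespace Pool.Agent.MOM.Dyn

open MeasureTheory Filter Topology Set

variable {Z : Type*} [TopologicalSpace Z] [CompactSpace Z] [T2Space Z]
  [SecondCountableTopology Z] [MeasurableSpace Z] [BorelSpace Z]

theorem erg_inv_aux {T S : Z → Z} (hS : Continuous S) (hST : ∀ z, S (T z) = T (S z))
    {ν : Measure Z} [IsProbabilityMeasure ν] {Nk : ℕ → ℕ} {z : Z} (h1 : Gen T ν Nk z)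
    (h2 : Gen T ν Nk (S z)) : ν.map S = ν := by
  have hit : ∀ n : ℕ, S (T^[n] z) = T^[n] (S z) := by
    intro n
    induction n with
    | zero => rfl
    | succ n ih => rw [Function.iterate_succ_apply', Function.iterate_succ_apply', hST, ih]
  have : TopologicalSpace.MetrizableSpace Z := inferInstance
  have : IsProbabilityMeasure (ν.map S) :=
    Measure.isProbabilityMeasure_map hS.measurable.aemeasurable
  refine ext_of_forall_integral_eq_of_IsFiniteMeasure fun f => ?_
  rw [integral_map hS.measurable.aemeasurable f.continuous.aestronglyMeasurable]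
  have e1 := h1 (f.toContinuousMap.comp ⟨S, hS⟩)
  have e2 := h2 f.toContinuousMap
  have e3 : (fun k => (∑ n ∈ Finset.range (Nk k),
      (f.toContinuousMap.comp ⟨S, hS⟩) (T^[n] z)) / (Nk k : ℝ)) =
      fun k => (∑ n ∈ Finset.range (Nk k), f.toContinuousMap (T^[n] (S z))) / (Nk k : ℝ) := by
    funext k
    congr 1
    refine Finset.sum_congr rfl fun n _ => ?_
    show f (S (T^[n] z)) = f (T^[n] (S z))
    rw [hit]
  rw [e3] at e1
  exact tendsto_nhds_unique e1 e2

end Pool.Agent.MOM.Dyn
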