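import Pool.Agent.MOM.Dyn.Erg.Defs

/-!
MOM/Dyn/Erg package InvM: the set of the invariant probability measures; integrals are continuous.

PROOF. (1) `Z` is metrizable (compact Hausdorff second countable:
`TopologicalSpace.metrizableSpace_of_t3_secondCountable`), so `HasOuterApproxClosed Z` and
`ProbabilityMeasure Z` is Hausdorff and compact (`Mathlib.MeasureTheory.Measure.Prokhorov`).
(2) `continuous_int`: `ProbabilityMeasure.tendsto_iff_forall_integral_tendsto` (an element of
`C(Z, ℝ)` is a bounded continuous function, `BoundedContinuousFunction.mkOfCompact`).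
(3) `invM_iff`: `ν.map T = ν` iff all integrals of continuous functions agree
(`integral_map`, `ext_of_forall_integral_eq_of_IsFiniteMeasure`).
(4) `isCompact_invM`: by (2) and (3) `InvM T` is the intersection over `f` of the closed sets
`{ν | ∫ f ∘ T = ∫ f}` (`isClosed_iInter`, `isClosed_eq`), closed in a compact space.
(5) `eq_of_int`: `ext_of_forall_integral_eq_of_IsFiniteMeasure` and `Subtype.ext`.
-/

set_option autoImplicit false

namespace Pool.Agent.MOM.Dyn

open MeasureTheory Filter Topology Set

variable {Z : Type*} [TopologicalSpace Z] [CompactSpace Z] [T2Space Z]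
  [SecondCountableTopology Z] [MeasurableSpace Z] [BorelSpace Z]

theorem continuous_int (f : C(Z, ℝ)) :
    Continuous fun ν : ProbabilityMeasure Z => ∫ z, f z ∂(ν : Measure Z) := by
  rw [continuous_iff_continuousAt]
  intro ν
  exact ProbabilityMeasure.tendsto_iff_forall_integral_tendsto.1 tendsto_id
    (BoundedContinuousFunction.mkOfCompact f)

private theorem invM_ext {μ ν : Measure Z} [IsFiniteMeasure μ] [IsFiniteMeasure ν]
    (h : ∀ f : C(Z, ℝ), ∫ z, f z ∂μ = ∫ z, f z ∂ν) : μ = ν :=
  ext_of_forall_integral_eq_of_IsFiniteMeasure fun f => h f.toContinuousMap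

theorem invM_iff {T : Z → Z} (hT : Continuous T) (ν : ProbabilityMeasure Z) :
    ν ∈ InvM T ↔ ∀ f : C(Z, ℝ), ∫ z, f (T z) ∂(ν : Measure Z) = ∫ z, f z ∂(ν : Measure Z) := by
  have hmap : ∀ f : C(Z, ℝ), ∫ z, f z ∂((ν : Measure Z).map T) =
      ∫ z, f (T z) ∂(ν : Measure Z) := fun f =>
    integral_map hT.measurable.aemeasurable f.continuous.aestronglyMeasurable
  constructor
  · intro h f
    have h' : (ν : Measure Z).map T = (ν : Measure Z) := h
    rw [← hmap f, h']
  · intro h
    show (ν : Measure Z).map T = (ν : Measure Z)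
    have : IsProbabilityMeasure ((ν : Measure Z).map T) :=
      Measure.isProbabilityMeasure_map hT.measurable.aemeasurable
    exact invM_ext fun f => (hmap f).trans (h f)

theorem isCompact_invM {T : Z → Z} (hT : Continuous T) : IsCompact (InvM T) := by
  have h : InvM T = ⋂ f : C(Z, ℝ), {ν : ProbabilityMeasure Z |
      ∫ z, f (T z) ∂(ν : Measure Z) = ∫ z, f z ∂(ν : Measure Z)} := by
    ext ν
    rw [invM_iff hT, Set.mem_iInter]
    rfl
  rw [h]
  refine (isClosed_iInter fun f => ?_).isCompact
  exact isClosed_eq (continuous_int (f.comp ⟨T, hT⟩)) (continuous_int f)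

theorem eq_of_int {μ ν : ProbabilityMeasure Z}
    (h : ∀ f : C(Z, ℝ), ∫ z, f z ∂(μ : Measure Z) = ∫ z, f z ∂(ν : Measure Z)) : μ = ν := by
  have h1 : (μ : Measure Z) = (ν : Measure Z) := invM_ext h
  exact Subtype.ext h1

end Pool.Agent.MOM.Dyn
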