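import Pool.Agent.MOM.Dyn.Erg.Good
import Pool.Agent.MOM.Dyn.Erg.Inv
import Pool.Agent.MOM.Dyn.Erg.Emp
import Pool.Agent.MOM.Dyn.Erg.Ext
import Pool.Agent.MOM.Dyn.Erg.ErgExt

/-!
MOM/Dyn/Erg: the ergodic theory used in the dynamical part, for a continuous map `T` of a compact
second countable Hausdorff space `Z`. (`Gen` is in `Erg/Defs.lean`.)
-/

set_option autoImplicit false

namespace Pool.Agent.MOM.Dyn

open MeasureTheory Filter Topology Set

variable {Z : Type*} [TopologicalSpace Z] [CompactSpace Z] [T2Space Z]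
  [SecondCountableTopology Z] [MeasurableSpace Z] [BorelSpace Z]

/-- Some ergodic measure has a larger integral than a given invariant measure. -/
theorem exists_erg {T : Z → Z} (hT : Continuous T) (ψ : C(Z, ℝ)) {ν : ProbabilityMeasure Z}
    (hν : ν ∈ InvM T) :
    ∃ μ : Measure Z, IsProbabilityMeasure μ ∧ Ergodic T μ ∧
      ∫ z, ψ z ∂(ν : Measure Z) ≤ ∫ z, ψ z ∂μ := by
  obtain ⟨μ, h1, h2, h3⟩ := exists_ext hT ψ ⟨ν, hν⟩
  exact ⟨μ, inferInstance, ergodic_of_ext hT h1 h3, h2 ν hν⟩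

/-- (E1) If `∫ ψ = 0` for all ergodic measures then the time averages of `ψ` tend to `0`
uniformly. -/
theorem erg_unif {T : Z → Z} (hT : Continuous T) (ψ : C(Z, ℝ))
    (h : ∀ ν : Measure Z, IsProbabilityMeasure ν → Ergodic T ν → ∫ z, ψ z ∂ν = 0) {ε : ℝ}
    (hε : 0 < ε) :
    ∃ N0 : ℕ, ∀ N : ℕ, N0 ≤ N → ∀ z : Z, |∑ n ∈ Finset.range N, ψ (T^[n] z)| ≤ ε * N := by
  by_contra hcon
  push Not at hcon
  obtain ⟨ν, hν, hle⟩ := exists_inv hT ψ hcon
  have key : ∀ φ : C(Z, ℝ), (∀ ν : Measure Z, IsProbabilityMeasure ν → Ergodic T ν →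
      ∫ z, φ z ∂ν = 0) → ∫ z, φ z ∂(ν : Measure Z) ≤ 0 := by
    intro φ hφ
    obtain ⟨μ, h1, h2, h3⟩ := exists_erg hT φ hν
    rw [hφ μ h1 h2] at h3
    exact h3
  have h1 := key ψ h
  have h2 := key (-ψ) (by
    intro ν' h3 h4
    simp only [ContinuousMap.coe_neg, Pi.neg_apply, integral_neg, h ν' h3 h4, neg_zero])
  simp only [ContinuousMap.coe_neg, Pi.neg_apply, integral_neg] at h2
  have h3 : ∫ z, ψ z ∂(ν : Measure Z) = 0 := by linarith
  rw [h3, abs_zero] at hle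
  linarith

open scoped Classical in
/-- (E3) Good sets of an ergodic measure: `K1` is a compact set of generic points, the points of
the compact set `K2 ⊆ K1` visit `K1` at least `95%` of the time, at every time scale. -/
theorem erg_good {T : Z → Z} (hT : Continuous T) (ν : Measure Z) [IsProbabilityMeasure ν]
    (hν : Ergodic T ν) :
    ∃ (K1 K2 : Set Z) (Nk : ℕ → ℕ), IsCompact K1 ∧ IsCompact K2 ∧ K2 ⊆ K1 ∧
      9 / 10 < ν.real K2 ∧ Tendsto Nk atTop atTop ∧ (∀ z ∈ K1, Gen T ν Nk z) ∧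
      ∀ z ∈ K2, ∀ N : ℕ, 20 * ((Finset.range N).filter fun n => T^[n] z ∉ K1).card ≤ N :=
  erg_good_aux ν hν

/-- (E4) If `z` and `S z` are generic for `ν` and `S` commutes with `T`, then `ν` is
`S`-invariant. -/
theorem erg_inv {T S : Z → Z} (hS : Continuous S) (hST : ∀ z, S (T z) = T (S z))
    {ν : Measure Z} [IsProbabilityMeasure ν] {Nk : ℕ → ℕ} {z : Z} (h1 : Gen T ν Nk z)
    (h2 : Gen T ν Nk (S z)) : ν.map S = ν :=
  erg_inv_aux hS hST h1 h2

end Pool.Agent.MOM.Dyn
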