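import Pool.Agent.MOM.Dyn.Erg.Defs

/-!
MOM/Dyn/Erg package MaxErg: the maximal ergodic theorem (Garsia).

PROOF. Define by recursion `Ph 0 z = 0`, `Ph (N+1) z = max 0 (g z + Ph N (T z))`.
(1) By induction: `Ph N` is measurable, `0 ≤ Ph N z ≤ C * N`, `Ph N z ≤ Ph (N+1) z` (for all `z`).
(2) By induction on `N`: `bs T g k z ≤ Ph N z` for `k ≤ N` (`k = 0`: `0 ≤ Ph`; `k+1 ≤ N+1`:
`bs T g (k+1) z = g z + bs T g k (T z) ≤ g z + Ph N (T z)`, lemma `bs_succ'`).
(3) `0 < Ph N z` implies `0 < bs T g k z` for some `k ≤ N` (induction: `Ph (N+1) z > 0` gives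
`Ph (N+1) z = g z + Ph N (T z)`; prove by induction on `N` that `Ph N z = bs T g k z` for some
`k ≤ N`: if the max is `0` take `k = 0`, otherwise `k+1` from the `k` of `Ph N (T z)`).
So `E_N := {z | 0 < Ph N z}` is increasing with union `E := {z | ∃ N, 0 < bs T g N z}`.
(4) For all `z` and `N`: `Ph N z - Ph N (T z) ≤ indicator (E_N) g z`. For `N = 0` both sides are
`0`. For `N+1`: if `z ∈ E_(N+1)` then `Ph (N+1) z = g z + Ph N (T z) ≤ g z + Ph (N+1) (T z)`; if
not, `Ph (N+1) z = 0 ≤ Ph (N+1) (T z)`.
(5) Integrate (everything is bounded and measurable, `ν` is a probability measure;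
`∫ Ph N (T z) = ∫ Ph N z` by `MeasurePreserving.integral_comp'` or `hT.map_eq` and
`integral_map`): `0 ≤ ∫ z in E_N, g z ∂ν`.
(6) `N → ∞`: `tendsto_setIntegral_of_monotone` and `ge_of_tendsto'`.
-/

set_option autoImplicit false

namespace Pool.Agent.MOM.Dyn

open MeasureTheory Filter Topology Set

variable {Z : Type*} [MeasurableSpace Z]

/-- the functions `Ph` of the proof -/
private noncomputable def maxErgPh (T : Z → Z) (g : Z → ℝ) : ℕ → Z → ℝ
  | 0, _ => 0
  | N + 1, z => max 0 (g z + maxErgPh T g N (T z))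

private theorem maxErgPh_nonneg (T : Z → Z) (g : Z → ℝ) (N : ℕ) (z : Z) :
    0 ≤ maxErgPh T g N z := by
  cases N with
  | zero => exact le_rfl
  | succ N => exact le_max_left _ _

private theorem maxErgPh_meas {T : Z → Z} (hT : Measurable T) {g : Z → ℝ} (hg : Measurable g)
    (N : ℕ) : Measurable (maxErgPh T g N) := by
  induction N with
  | zero => exact measurable_const
  | succ N ih => exact measurable_const.max (hg.add (ih.comp hT))

private theorem maxErgPh_le (T : Z → Z) {g : Z → ℝ} {C : ℝ} (hC : ∀ z, |g z| ≤ C) (N : ℕ) :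
    ∀ z, maxErgPh T g N z ≤ C * N := by
  induction N with
  | zero => intro z; simp [maxErgPh]
  | succ N ih =>
    intro z
    have h1 := ih (T z)
    have h2 := (abs_le.1 (hC z)).2
    have h3 : 0 ≤ C := (abs_nonneg _).trans (hC z)
    have h4 : (0 : ℝ) ≤ N := Nat.cast_nonneg N
    refine max_le ?_ ?_
    · positivity
    · push_cast
      nlinarith

private theorem maxErgPh_mono (T : Z → Z) (g : Z → ℝ) (N : ℕ) :
    ∀ z, maxErgPh T g N z ≤ maxErgPh T g (N + 1) z := by
  induction N with
  | zero => intro z; exact le_max_left _ _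
  | succ N ih =>
    intro z
    have h1 := ih (T z)
    exact max_le_max le_rfl (add_le_add le_rfl h1)

private theorem maxErgPh_ge (T : Z → Z) (g : Z → ℝ) (N : ℕ) :
    ∀ z, ∀ k ≤ N, bs T g k z ≤ maxErgPh T g N z := by
  induction N with
  | zero =>
    intro z k hk
    have : k = 0 := by omega
    rw [this, bs_zero]
    exact le_rfl
  | succ N ih =>
    intro z k hk
    cases k with
    | zero =>
      rw [bs_zero]
      exact le_max_left _ _
    | succ k =>
      rw [bs_succ']
      have h1 := ih (T z) k (by omega)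
      exact le_trans (add_le_add le_rfl h1) (le_max_right _ _)

private theorem maxErgPh_eq (T : Z → Z) (g : Z → ℝ) (N : ℕ) :
    ∀ z, ∃ k ≤ N, maxErgPh T g N z = bs T g k z := by
  induction N with
  | zero => intro z; exact ⟨0, le_rfl, by rw [bs_zero]; rfl⟩
  | succ N ih =>
    intro z
    obtain ⟨k, hk, h1⟩ := ih (T z)
    rcases le_total (g z + maxErgPh T g N (T z)) 0 with h | h
    · refine ⟨0, by omega, ?_⟩
      rw [bs_zero]
      exact max_eq_left h
    · refine ⟨k + 1, by omega, ?_⟩
      rw [bs_succ', ← h1]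
      exact max_eq_right h

private theorem maxErgPh_diff (T : Z → Z) (g : Z → ℝ) (N : ℕ) (z : Z) :
    maxErgPh T g N z - maxErgPh T g N (T z) ≤
      indicator {z | 0 < maxErgPh T g N z} g z := by
  cases N with
  | zero =>
    have h0 : z ∉ {z | 0 < maxErgPh T g 0 z} := fun h => lt_irrefl _ (show (0 : ℝ) < 0 from h)
    rw [indicator_of_notMem h0]
    simp [maxErgPh]
  | succ N =>
    by_cases h : 0 < maxErgPh T g (N + 1) z
    · rw [indicator_of_mem (show z ∈ {z | 0 < maxErgPh T g (N + 1) z} from h)]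
      have h1 : maxErgPh T g (N + 1) z = g z + maxErgPh T g N (T z) := by
        have h2 : 0 < max 0 (g z + maxErgPh T g N (T z)) := h
        rcases lt_max_iff.1 h2 with h3 | h3
        · exact absurd h3 (lt_irrefl _)
        · exact max_eq_right h3.le
      have h2 := maxErgPh_mono T g N (T z)
      linarith
    · rw [indicator_of_notMem (show z ∉ {z | 0 < maxErgPh T g (N + 1) z} from h)]
      have h1 := maxErgPh_nonneg T g (N + 1) (T z)
      push Not at h
      linarith

private theorem maxErg_step {T : Z → Z} {ν : Measure Z} [IsProbabilityMeasure ν]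
    (hT : MeasurePreserving T ν ν) {g : Z → ℝ} (hg : Measurable g) {C : ℝ}
    (hC : ∀ z, |g z| ≤ C) (N : ℕ) : 0 ≤ ∫ z in {z | 0 < maxErgPh T g N z}, g z ∂ν := by
  have hm := maxErgPh_meas hT.measurable hg N
  have hE : MeasurableSet {z | 0 < maxErgPh T g N z} := measurableSet_lt measurable_const hm
  have hb : ∀ z, ‖maxErgPh T g N z‖ ≤ C * N := by
    intro z
    rw [Real.norm_eq_abs, abs_of_nonneg (maxErgPh_nonneg T g N z)]
    exact maxErgPh_le T hC N z
  have i1 : Integrable (maxErgPh T g N) ν :=
    Integrable.of_bound hm.aestronglyMeasurable (C * N) (Eventually.of_forall hb)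
  have i2 : Integrable (fun z => maxErgPh T g N (T z)) ν :=
    Integrable.of_bound (hm.comp hT.measurable).aestronglyMeasurable (C * N)
      (Eventually.of_forall fun z => hb (T z))
  have i3 : Integrable g ν :=
    Integrable.of_bound hg.aestronglyMeasurable C (Eventually.of_forall fun z => by
      rw [Real.norm_eq_abs]
      exact hC z)
  have e1 : ∫ z, maxErgPh T g N (T z) ∂ν = ∫ z, maxErgPh T g N z ∂ν := by
    have h1 := integral_map hT.measurable.aemeasurable (μ := ν) (f := maxErgPh T g N)
      hm.aestronglyMeasurable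
    rw [hT.map_eq] at h1
    exact h1.symm
  have h1 : ∫ z, (maxErgPh T g N z - maxErgPh T g N (T z)) ∂ν ≤
      ∫ z, indicator {z | 0 < maxErgPh T g N z} g z ∂ν :=
    integral_mono (i1.sub i2) (i3.indicator hE) (maxErgPh_diff T g N)
  rw [integral_sub i1 i2, e1, sub_self, integral_indicator hE] at h1
  exact h1

/-- **Maximal ergodic theorem** for bounded measurable functions. -/
theorem max_erg {T : Z → Z} {ν : Measure Z} [IsProbabilityMeasure ν]
    (hT : MeasurePreserving T ν ν) {g : Z → ℝ} (hg : Measurable g) {C : ℝ}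
    (hC : ∀ z, |g z| ≤ C) : 0 ≤ ∫ z in {z | ∃ N, 0 < bs T g N z}, g z ∂ν := by
  have hu : {z | ∃ N, 0 < bs T g N z} = ⋃ N : ℕ, {z | 0 < maxErgPh T g N z} := by
    ext z
    simp only [mem_iUnion]
    constructor
    · rintro ⟨N, h⟩
      exact ⟨N, lt_of_lt_of_le h (maxErgPh_ge T g N z N le_rfl)⟩
    · rintro ⟨N, h⟩
      obtain ⟨k, -, h1⟩ := maxErgPh_eq T g N z
      refine ⟨k, ?_⟩
      rw [← h1]
      exact h
  have hE : ∀ N : ℕ, MeasurableSet {z | 0 < maxErgPh T g N z} := fun N =>
    measurableSet_lt measurable_const (maxErgPh_meas hT.measurable hg N)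
  have hmono : Monotone fun N : ℕ => {z | 0 < maxErgPh T g N z} := by
    refine monotone_nat_of_le_succ fun N z h => ?_
    exact lt_of_lt_of_le h (maxErgPh_mono T g N z)
  have i3 : Integrable g ν :=
    Integrable.of_bound hg.aestronglyMeasurable C (Eventually.of_forall fun z => by
      rw [Real.norm_eq_abs]
      exact hC z)
  have ht := tendsto_setIntegral_of_monotone (μ := ν) (f := g) hE hmono i3.integrableOn
  rw [hu]
  exact ge_of_tendsto' ht fun N => maxErg_step hT hg hC N

end Pool.Agent.MOM.Dyn
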